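import Mathlib

set_option autoImplicit false
open Finset MeasureTheory
open Classical

namespace Pool.Agent.H.MP_e1a649_nt

theorem cnt1 (n : ℕ) (hn : 0 < n) (t : ℝ) (h0 : 0 ≤ t) (h1 : t ≤ 1) :
    n * t ≤ ∑ i : Fin n, (if ((i : ℕ) : ℝ) / n < t then (1 : ℝ) else 0) ∧
    ∑ i : Fin n, (if ((i : ℕ) : ℝ) / n < t then (1 : ℝ) else 0) ≤ n * t + 1 := by
  have hn' : (0 : ℝ) < n := by exact_mod_cast hn
  have e : ∑ i : Fin n, (if ((i : ℕ) : ℝ) / n < t then (1 : ℝ) else 0) = ⌈n * t⌉₊ := by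
    rw [Fin.sum_univ_eq_sum_range (fun i : ℕ => if (i : ℝ) / n < t then (1 : ℝ) else 0),
      sum_boole]
    have : filter (fun i : ℕ => (i : ℝ) / n < t) (range n) = range ⌈n * t⌉₊ := by
      ext i
      simp only [mem_filter, mem_range, Nat.lt_ceil, div_lt_iff₀ hn', mul_comm t]
      refine ⟨fun h => h.2, fun h => ⟨?_, h⟩⟩
      have : (i : ℝ) < n := by nlinarith
      exact_mod_cast this
    rw [this, card_range]
  rw [e]
  exact ⟨Nat.le_ceil _, (Nat.ceil_lt_add_one (by positivity)).le⟩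

theorem top_cnt (n m : ℕ) (h : m ≤ n) :
    ∑ j : Fin n, (if (j : ℕ) < n - m then (0 : ℝ) else 1) = m := by
  rw [Fin.sum_univ_eq_sum_range (fun j : ℕ => if j < n - m then (0 : ℝ) else 1)]
  simp only [← ite_not (_ < n - m), sum_boole]
  have : filter (fun j : ℕ => ¬ j < n - m) (range n) = Ico (n - m) n := by
    ext j; simp only [mem_filter, mem_range, mem_Ico]; omega
  rw [this, Nat.card_Ico]
  congr 1; omega

/-- the point set: a grid whose top `m` rows are squeezed to the left -/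
noncomputable def pt (n m : ℕ) (i j : ℕ) : Fin 2 → ℝ :=
  ![if j < n - m then (i : ℝ) / n else (i : ℝ) / (4 * n), (j : ℝ) / n]

noncomputable def PP (n m : ℕ) (k : Fin (n * n)) : Fin 2 → ℝ :=
  pt n m (finProdFinEquiv.symm k).2 (finProdFinEquiv.symm k).1

theorem card_PP (n m : ℕ) (Q : (Fin 2 → ℝ) → Prop) (inst : DecidablePred fun k => Q (PP n m k))
    (inst2 : ∀ i j : Fin n, Decidable (Q (pt n m i j))) :
    ((univ.filter fun k : Fin (n * n) => Q (PP n m k)).card : ℝ) =
      ∑ j : Fin n, ∑ i : Fin n, if Q (pt n m i j) then (1 : ℝ) else 0 := by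
  rw [card_filter, ← Fintype.sum_prod_type', ← Equiv.sum_comp finProdFinEquiv.symm]
  push_cast
  refine sum_congr rfl fun k _ => ?_
  simp only [PP]
  congr

theorem PP_mem (n m : ℕ) (k : Fin (n * n)) (j : Fin 2) : 0 ≤ PP n m k j ∧ PP n m k j < 1 := by
  have h1 : (((finProdFinEquiv.symm k).1 : ℕ) : ℝ) < n := by exact_mod_cast (finProdFinEquiv.symm k).1.2
  have h2 : (((finProdFinEquiv.symm k).2 : ℕ) : ℝ) < n := by exact_mod_cast (finProdFinEquiv.symm k).2.2
  have hn : (0 : ℝ) < n := lt_of_le_of_lt (by positivity) h1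
  fin_cases j
  · simp only [PP, pt, Fin.zero_eta, Matrix.cons_val_zero]
    split_ifs
    · exact ⟨by positivity, (div_lt_one hn).2 h2⟩
    · exact ⟨by positivity, (div_lt_one (by positivity)).2 (by linarith)⟩
  · simp only [PP, pt, Fin.mk_one, Matrix.cons_val_one, Matrix.cons_val_zero]
    exact ⟨by positivity, (div_lt_one hn).2 h1⟩

theorem star_pt (m : ℕ) (hm : 4 ≤ m) (t : Fin 2 → ℝ) (ht : t ∈ Set.Icc (0 : Fin 2 → ℝ) 1) :
    |(∑ j : Fin (m * m), ∑ i : Fin (m * m),
        if (∀ l : Fin 2, pt (m * m) m i j l < t l) then (1 : ℝ) else 0) -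
      ((m * m * (m * m) : ℕ) : ℝ) * ∏ l : Fin 2, t l| ≤
      2 * (m * m) + (Set.Icc ![0, 1 - 1 / (m : ℝ)] (1 : Fin 2 → ℝ)).indicator
        (fun _ => (m : ℝ) * (m * m)) t := by
  set n := m * m with hn
  have hn0 : 0 < n := by positivity
  have hn' : (0 : ℝ) < n := by exact_mod_cast hn0
  have hm' : (4 : ℝ) ≤ m := by exact_mod_cast hm
  have hnm : (n : ℝ) = m * m := by rw [hn]; push_cast; ring
  have hmn : m ≤ n := Nat.le_mul_self m
  have a0 := ht.1 0
  have a1 := ht.1 1
  have b0 := ht.2 0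
  have b1 := ht.2 1
  simp only [Pi.zero_apply, Pi.one_apply] at a0 a1 b0 b1
  set I := (Set.Icc ![0, 1 - 1 / (m : ℝ)] (1 : Fin 2 → ℝ)).indicator (fun _ => (1 : ℝ)) t with hI
  have hI' : (Set.Icc ![0, 1 - 1 / (m : ℝ)] (1 : Fin 2 → ℝ)).indicator
      (fun _ => (m : ℝ) * (m * m)) t = m * (m * m) * I := by
    rw [hI]; simp only [Set.indicator]; split_ifs <;> simp
  have hI0 : 0 ≤ I := Set.indicator_nonneg (fun _ _ => zero_le_one) _
  obtain ⟨c1, c2⟩ := cnt1 n hn0 (t 0) a0 b0
  obtain ⟨d1, d2⟩ := cnt1 n hn0 (t 1) a1 b1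
  have row : ∀ j : Fin n, |(∑ i : Fin n, if (∀ l : Fin 2, pt n m i j l < t l) then (1 : ℝ) else 0) -
      n * t 0 * (if ((j : ℕ) : ℝ) / n < t 1 then (1 : ℝ) else 0)| ≤
      1 + n * I * (if (j : ℕ) < n - m then (0 : ℝ) else 1) := by
    intro j
    simp only [Fin.forall_fin_two, pt, Matrix.cons_val_zero, Matrix.cons_val_one]
    by_cases h : ((j : ℕ) : ℝ) / n < t 1
    · simp only [h, and_true, if_true, mul_one]
      by_cases hj : (j : ℕ) < n - m
      · simp only [hj, if_true, mul_zero, add_zero]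
        rw [abs_le]; constructor <;> linarith
      · simp only [hj, if_false, mul_one]
        have hI1 : I = 1 := by
          rw [hI, Set.indicator_of_mem]
          refine ⟨?_, ht.2⟩
          intro l
          fin_cases l
          · simpa using a0
          · have h3 : n ≤ (j : ℕ) + m := by omega
            have h4 : (n : ℝ) ≤ (j : ℕ) + m := by exact_mod_cast h3
            have h5 : 1 - 1 / (m : ℝ) ≤ ((j : ℕ) : ℝ) / n := by
              rw [le_div_iff₀ hn', hnm]
              have : (1 - 1 / (m : ℝ)) * (m * m) = m * m - m := by field_simp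
              rw [this]; linarith
            simpa using h5.trans h.le
        have s0 : (0 : ℝ) ≤ ∑ i : Fin n, if ((i : ℕ) : ℝ) / (4 * n) < t 0 then (1 : ℝ) else 0 :=
          sum_nonneg fun i _ => by split_ifs <;> simp
        have s1 : (∑ i : Fin n, if ((i : ℕ) : ℝ) / (4 * n) < t 0 then (1 : ℝ) else 0) ≤ n := by
          calc _ ≤ ∑ _i : Fin n, (1 : ℝ) := sum_le_sum fun i _ => by split_ifs <;> simp
            _ = n := by simp
        rw [hI1, abs_le]
        constructor <;> nlinarith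
    · simp only [h, and_false, if_false, sum_const_zero, mul_zero, sub_self, abs_zero]
      split_ifs <;> positivity
  have tot := (abs_sum_le_sum_abs _ _).trans (sum_le_sum fun j (_ : j ∈ univ) => row j)
  rw [sum_sub_distrib, sum_add_distrib, ← mul_sum, ← mul_sum, top_cnt n m hmn] at tot
  simp only [sum_const, card_univ, Fintype.card_fin, nsmul_eq_mul, mul_one] at tot
  rw [hI', Fin.prod_univ_two, ← hnm]
  push_cast
  rw [abs_le] at tot ⊢
  have e1 : n * t 0 * (n * t 1) ≤ n * t 0 *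
      ∑ i : Fin n, (if ((i : ℕ) : ℝ) / n < t 1 then (1 : ℝ) else 0) := by gcongr
  have e2 : n * t 0 * ∑ i : Fin n, (if ((i : ℕ) : ℝ) / n < t 1 then (1 : ℝ) else 0) ≤
      n * t 0 * (n * t 1 + 1) := by gcongr
  have e3 : n * t 0 ≤ n := by nlinarith
  constructor <;> nlinarith [tot.1, tot.2]

theorem per_pt (m : ℕ) (hm : 4 ≤ m) (x y : Fin 2 → ℝ)
    (hx : x ∈ Set.Icc ![1 / 4, 1 / 2] ![3 / 8, 3 / 4])
    (hy : y ∈ Set.Icc ![5 / 8, 0] ![3 / 4, 1 / 4]) :
    (m * m : ℝ) * (m - 5) / 4 ≤ |(∑ j : Fin (m * m), ∑ i : Fin (m * m),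
        if (∀ l : Fin 2, if x l ≤ y l then (x l ≤ pt (m * m) m i j l ∧ pt (m * m) m i j l < y l)
          else (pt (m * m) m i j l < y l ∨ x l ≤ pt (m * m) m i j l)) then (1 : ℝ) else 0) -
      ((m * m * (m * m) : ℕ) : ℝ) *
        ∏ l : Fin 2, (if x l ≤ y l then y l - x l else 1 - x l + y l)| := by
  set n := m * m with hn
  have hn0 : 0 < n := by positivity
  have hn' : (0 : ℝ) < n := by exact_mod_cast hn0
  have hm' : (4 : ℝ) ≤ m := by exact_mod_cast hm
  have hnm : (n : ℝ) = m * m := by rw [hn]; push_cast; ring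
  have hmn : m ≤ n := Nat.le_mul_self m
  have a0 := hx.1 0
  have a1 := hx.1 1
  have a2 := hx.2 0
  have a3 := hx.2 1
  have b0 := hy.1 0
  have b1 := hy.1 1
  have b2 := hy.2 0
  have b3 := hy.2 1
  simp only [Matrix.cons_val_zero, Matrix.cons_val_one] at a0 a1 a2 a3 b0 b1 b2 b3
  have h0 : x 0 ≤ y 0 := by linarith
  have h1 : ¬ x 1 ≤ y 1 := by linarith
  obtain ⟨c1, -⟩ := cnt1 n hn0 (x 0) (by linarith) (by linarith)
  obtain ⟨-, c2⟩ := cnt1 n hn0 (y 0) (by linarith) (by linarith)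
  obtain ⟨d1, -⟩ := cnt1 n hn0 (x 1) (by linarith) (by linarith)
  obtain ⟨-, d2⟩ := cnt1 n hn0 (y 1) (by linarith) (by linarith)
  simp only [Fin.forall_fin_two, Fin.prod_univ_two, h0, h1, if_true, if_false, pt,
    Matrix.cons_val_zero, Matrix.cons_val_one]
  have row : ∀ j : Fin n, (∑ i : Fin n,
      if (x 0 ≤ (if (j : ℕ) < n - m then ((i : ℕ) : ℝ) / n else ((i : ℕ) : ℝ) / (4 * n)) ∧
          (if (j : ℕ) < n - m then ((i : ℕ) : ℝ) / n else ((i : ℕ) : ℝ) / (4 * n)) < y 0) ∧
        (((j : ℕ) : ℝ) / n < y 1 ∨ x 1 ≤ ((j : ℕ) : ℝ) / n) then (1 : ℝ) else 0) ≤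
      (n * (y 0 - x 0) + 1) * ((if ((j : ℕ) : ℝ) / n < y 1 then (1 : ℝ) else 0) + 1 -
        (if ((j : ℕ) : ℝ) / n < x 1 then (1 : ℝ) else 0) -
        (if (j : ℕ) < n - m then (0 : ℝ) else 1)) := by
    intro j
    have hp : 0 ≤ n * (y 0 - x 0) + 1 := by nlinarith
    by_cases hj : (j : ℕ) < n - m
    · simp only [hj, if_true, sub_zero]
      by_cases h : ((j : ℕ) : ℝ) / n < y 1 ∨ x 1 ≤ ((j : ℕ) : ℝ) / n
      · have e : (if ((j : ℕ) : ℝ) / n < y 1 then (1 : ℝ) else 0) + 1 -
            (if ((j : ℕ) : ℝ) / n < x 1 then (1 : ℝ) else 0) = 1 := by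
          rcases h with h | h
          · rw [if_pos h, if_pos (by linarith)]; ring
          · rw [if_neg (by linarith), if_neg (by linarith)]; ring
        rw [e]
        simp only [h, and_true, mul_one]
        calc _ ≤ ∑ i : Fin n, ((if ((i : ℕ) : ℝ) / n < y 0 then (1 : ℝ) else 0) -
              (if ((i : ℕ) : ℝ) / n < x 0 then (1 : ℝ) else 0)) := by
              refine sum_le_sum fun i _ => ?_
              by_cases g1 : ((i : ℕ) : ℝ) / n < x 0
              · rw [if_neg (fun h => by linarith [h.1]), if_pos (by linarith), if_pos g1]; simp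
              · rw [if_neg g1]
                split_ifs with g2 g3
                · simp
                · exact absurd g2.2 g3
                · simp
                · simp
          _ ≤ _ := by rw [sum_sub_distrib]; linarith
      · simp only [h, and_false, if_false, sum_const_zero]
        refine mul_nonneg hp ?_
        split_ifs <;> norm_num
    · simp only [hj, if_false]
      have h3 : n ≤ (j : ℕ) + m := by omega
      have h4 : (n : ℝ) ≤ (j : ℕ) + m := by exact_mod_cast h3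
      have h5 : 3 / 4 ≤ ((j : ℕ) : ℝ) / n := by
        rw [le_div_iff₀ hn']; nlinarith
      rw [if_neg (by linarith), if_neg (by linarith)]
      simp only [zero_add, sub_zero, sub_self, mul_zero]
      refine (sum_eq_zero fun i _ => if_neg fun h => ?_).le
      have h6 : ((i : ℕ) : ℝ) < n := by exact_mod_cast i.2
      have h7 : ((i : ℕ) : ℝ) / (4 * n) < 1 / 4 := by
        rw [div_lt_iff₀ (by positivity)]; linarith
      linarith [h.1.1]
  have tot := sum_le_sum fun j (_ : j ∈ univ) => row j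
  rw [← mul_sum, sum_sub_distrib, sum_sub_distrib, sum_add_distrib, top_cnt n m hmn] at tot
  simp only [sum_const, card_univ, Fintype.card_fin, nsmul_eq_mul, mul_one] at tot
  have hp : 0 ≤ n * (y 0 - x 0) + 1 := by nlinarith
  have tot2 := tot.trans (mul_le_mul_of_nonneg_left
    (show _ ≤ n * (1 - x 1 + y 1) + 1 - m by linarith) hp)
  refine le_trans ?_ (neg_le_abs _)
  rw [← hnm]
  push_cast
  have e1 : (m - 1) * (n * (1 / 4)) ≤ (m - 1) * (n * (y 0 - x 0)) := by
    gcongr
    · linarith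
    · linarith
  have e2 : n * (1 - x 1 + y 1) ≤ n := by nlinarith
  nlinarith

end Pool.Agent.H.MP_e1a649_nt
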